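import Mathlib
import Pool.Agent.N631.RPO.Main

set_option autoImplicit false

/-!
# The existential theory of the recursive path ordering with a partial precedence is undecidable

The definitions (signatures with a partial precedence and a status, the recursive path ordering, the
first-order language, Gödel numbers, decidability of the existential fragment) are in
`Pool/Agent/N631/RPO/Defs.lean`.

For three pairwise incomparable unary symbols and a constant below which there is nothing, the
recursive path ordering on the terms built from them is the strict (scattered) subword ordering.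
Addition and multiplication of exponents are given by finite systems of subword constraints and their
negations, so each recursively enumerable set of numbers is given by such a system.
-/

namespace Pool.Agent.Results.MP_18cdfa_lc.PartialPrecedence

open FirstOrder FirstOrder.Language
open Pool.Agent.N631.RPO

/-! ### Sanity checks: the Gödel numbering is injective -/

theorem termCode_injective {S : Sig} {m : ℕ} (s t : (lang S).Term (Empty ⊕ Fin m))
    (h : termCode s = termCode t) : s = t := by
  induction s generalizing t with
  | var x =>
    rcases x with x | i
    · exact x.elim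
    · cases t with
      | var y =>
        rcases y with y | j
        · exact y.elim
        · simp only [termCode, Nat.pair_eq_pair] at h
          rw [Fin.ext h.2]
      | func g us => simp [termCode, Nat.pair_eq_pair] at h
  | @func n f ts ih =>
    cases t with
    | var y =>
      rcases y with y | j
      · exact y.elim
      · simp [termCode, Nat.pair_eq_pair] at h
    | @func n' g us =>
      simp only [termCode, Nat.pair_eq_pair] at h
      obtain ⟨f, hf⟩ := f
      obtain ⟨g, hg⟩ := g
      have h1 : f = g := Fin.ext (by simpa using h.1)
      subst h1
      subst hf
      subst hg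
      have h2 := Encodable.encode_injective h.2
      have h3 := List.ofFn_injective h2
      congr 1
      funext i
      exact ih i _ (congrFun h3 i)

theorem code_injective {S : Sig} {m : ℕ} (φ ψ : (lang S).BoundedFormula Empty m)
    (h : code φ = code ψ) : φ = ψ := by
  induction φ with
  | falsum =>
    cases ψ with
    | falsum => rfl
    | equal a b => simp [code, Nat.pair_eq_pair] at h
    | rel r a => cases r; simp [code, Nat.pair_eq_pair] at h
    | imp a b => simp [code, Nat.pair_eq_pair] at h
    | all a => simp [code, Nat.pair_eq_pair] at h
  | equal a b =>
    cases ψ with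
    | falsum => simp [code, Nat.pair_eq_pair] at h
    | equal c d =>
      simp only [code, Nat.pair_eq_pair, true_and] at h
      rw [termCode_injective _ _ h.1, termCode_injective _ _ h.2]
    | rel r a => cases r; simp [code, Nat.pair_eq_pair] at h
    | imp a b => simp [code, Nat.pair_eq_pair] at h
    | all a => simp [code, Nat.pair_eq_pair] at h
  | rel r a =>
    cases r
    cases ψ with
    | falsum => simp [code, Nat.pair_eq_pair] at h
    | equal c d => simp [code, Nat.pair_eq_pair] at h
    | rel r b =>
      cases r
      simp only [code, Nat.pair_eq_pair, true_and] at h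
      have h1 := termCode_injective _ _ h.1
      have h2 := termCode_injective _ _ h.2
      congr 1
      funext i
      fin_cases i
      · exact h1
      · exact h2
    | imp a b => simp [code, Nat.pair_eq_pair] at h
    | all a => simp [code, Nat.pair_eq_pair] at h
  | imp a b iha ihb =>
    cases ψ with
    | falsum => simp [code, Nat.pair_eq_pair] at h
    | equal c d => simp [code, Nat.pair_eq_pair] at h
    | rel r a => cases r; simp [code, Nat.pair_eq_pair] at h
    | imp c d =>
      simp only [code, Nat.pair_eq_pair, true_and] at h
      rw [iha _ h.1, ihb _ h.2]
    | all a => simp [code, Nat.pair_eq_pair] at h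
  | all a iha =>
    cases ψ with
    | falsum => simp [code, Nat.pair_eq_pair] at h
    | equal c d => simp [code, Nat.pair_eq_pair] at h
    | rel r a => cases r; simp [code, Nat.pair_eq_pair] at h
    | imp c d => simp [code, Nat.pair_eq_pair] at h
    | all c =>
      simp only [code, Nat.pair_eq_pair, true_and] at h
      rw [iha _ h]

/-! ### The result -/

/-- The signature with three unary symbols `0, 1, 2`, a binary symbol `3` with status `lex`, a binary
symbol `4` with status `mul`, and a constant `5`; the precedence is empty. The status of the unary
symbols is arbitrary. -/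
def mixed (st : Fin 3 → Bool) : Sig where
  k := 6
  ar := ![1, 1, 1, 2, 2, 0]
  exists_const := ⟨5, rfl⟩
  prec := fun _ _ => False
  prec_irrefl := fun _ h => h
  prec_trans := fun _ _ _ h _ => h
  lex := ![st 0, st 1, st 2, true, false, true]

/-- The signature with three unary symbols `0, 1, 2` and a constant `3`, with the empty precedence
and any status. -/
def small (st : Fin 4 → Bool) : Sig where
  k := 4
  ar := ![1, 1, 1, 0]
  exists_const := ⟨3, rfl⟩
  prec := fun _ _ => False
  prec_irrefl := fun _ h => h
  prec_trans := fun _ _ _ h _ => h
  lex := st

/-- **The existential fragment of the theory of the recursive path ordering is undecidable for each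
finite signature with three pairwise incomparable unary symbols `a`, `b`, `d` and a constant `c` such
that nothing is below `c` and nothing but possibly `c` is below `a`, `b` or `d`**, whatever the other
symbols, the rest of the precedence and the status are; and each recursively enumerable set of
numbers reduces to it. -/
theorem result :
    (∀ (S : Sig) (a b d c : Fin S.k), a ≠ b → a ≠ d → b ≠ d →
      S.ar a = 1 → S.ar b = 1 → S.ar d = 1 → S.ar c = 0 →
      (∀ g, S.prec a g ∨ S.prec b g ∨ S.prec d g → g = c) → (∀ g, ¬ S.prec c g) →
      ¬ ExistentialDecidable S ∧
      ∀ W : ℕ → Prop, REPred W → ∃ φ : ℕ → (lang S).Sentence, Computable (fun n => code (φ n)) ∧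
        ∀ n, (φ n).IsExistential ∧ (T S ⊨ φ n ↔ W n)) ∧
    (∀ st : Fin 4 → Bool, ¬ ExistentialDecidable (small st)) ∧
    (∀ st : Fin 3 → Bool, ¬ ExistentialDecidable (mixed st)) := by
  have key : ∀ (S : Sig) (a b d c : Fin S.k), a ≠ b → a ≠ d → b ≠ d →
      S.ar a = 1 → S.ar b = 1 → S.ar d = 1 → S.ar c = 0 →
      (∀ g, S.prec a g ∨ S.prec b g ∨ S.prec d g → g = c) → (∀ g, ¬ S.prec c g) →
      Nonempty (Setup S) := by
    intro S a b d c hab had hbd ha hb hd hc hbelow hc'
    refine ⟨{ u := ![a, b, d], inj := ?_, ar_u := ?_, c := c, ar_c := hc, below := ?_,
              below_c := hc' }⟩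
    · intro i j hij
      fin_cases i <;> fin_cases j <;> simp_all
    · intro i
      fin_cases i
      · exact ha
      · exact hb
      · exact hd
    · intro i g hg
      fin_cases i
      · exact hbelow g (Or.inl hg)
      · exact hbelow g (Or.inr (Or.inl hg))
      · exact hbelow g (Or.inr (Or.inr hg))
  refine ⟨?_, ?_, ?_⟩
  · intro S a b d c hab had hbd ha hb hd hc hbelow hc'
    obtain ⟨A⟩ := key S a b d c hab had hbd ha hb hd hc hbelow hc'
    exact ⟨not_existentialDecidable A, fun W hW => A.reduction W hW⟩
  · intro st
    obtain ⟨A⟩ := key (small st) (0 : Fin 4) (1 : Fin 4) (2 : Fin 4) (3 : Fin 4)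
      (by change (0 : Fin 4) ≠ 1; decide) (by change (0 : Fin 4) ≠ 2; decide)
      (by change (1 : Fin 4) ≠ 2; decide) rfl rfl rfl rfl (fun g hg => by
        rcases hg with h | h | h <;> exact False.elim h) (fun g h => h)
    exact not_existentialDecidable A
  · intro st
    obtain ⟨A⟩ := key (mixed st) (0 : Fin 6) (1 : Fin 6) (2 : Fin 6) (5 : Fin 6)
      (by change (0 : Fin 6) ≠ 1; decide) (by change (0 : Fin 6) ≠ 2; decide)
      (by change (1 : Fin 6) ≠ 2; decide) rfl rfl rfl rfl (fun g hg => by
        rcases hg with h | h | h <;> exact False.elim h) (fun g h => h)
    exact not_existentialDecidable A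

end Pool.Agent.Results.MP_18cdfa_lc.PartialPrecedence
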